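import Mathlib

/-!
# Algebraic independence over the point defined by an ideal of polynomials over a subfield
-/

set_option autoImplicit false

open MvPolynomial
open scoped TensorProduct

namespace Pool.Agent.Y113.EU

variable {F : Type} [Field F] [Algebra F ℂ] {ι σ : Type}

omit [Algebra F ℂ] in
/-- evaluation through the sum decomposition -/
theorem aeval_sum {B : Type} [CommRing B] [Algebra F B] (f : ι → B) (g : σ → B) (P : MvPolynomial (ι ⊕ σ) F) :
    aeval (Sum.elim f g) P =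
      ∑ m ∈ (sumAlgEquiv F ι σ P).support, aeval g ((sumAlgEquiv F ι σ P).coeff m) * m.prod fun i e => f i ^ e := by
  have h : (aeval (Sum.elim f g) : MvPolynomial (ι ⊕ σ) F →ₐ[F] B).toRingHom =
      (eval₂Hom ((aeval g : MvPolynomial σ F →ₐ[F] B).toRingHom) f).comp (sumAlgEquiv F ι σ).toRingEquiv.toRingHom := by
    refine MvPolynomial.ringHom_ext (fun a => ?_) fun i => ?_
    · simp [sumAlgEquiv_C_inl]
    · rcases i with i | i
      · simp [sumAlgEquiv_X_inl]
      · simp [sumAlgEquiv_X_inr]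
  have h2 := DFunLike.congr_fun h P
  have h3 : aeval (Sum.elim f g) P = eval₂ ((aeval g : MvPolynomial σ F →ₐ[F] B).toRingHom) f (sumAlgEquiv F ι σ P) := h2
  rw [h3, eval₂_eq]
  refine Finset.sum_congr rfl fun m _ => ?_
  rfl

theorem core (w : ι → ℂ) (hw : AlgebraicIndependent F w) (y : σ → ℂ) (G : Set (MvPolynomial σ ℂ))
    (hG : ∀ g ∈ G, ∃ g' : MvPolynomial σ F, g = MvPolynomial.map (algebraMap F ℂ) g' ∧ aeval y g' = 0)
    (P : MvPolynomial (ι ⊕ σ) F)
    (hP : aeval (Sum.elim (fun i => (C (w i) : MvPolynomial σ ℂ)) X) P ∈ Ideal.span G) (v : ι → ℂ) :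
    aeval (Sum.elim v y) P = 0 := by
  classical
  set P' := sumAlgEquiv F ι σ P with hP'
  let Ψ : MvPolynomial σ ℂ →ₐ[ℂ] ℂ ⊗[F] ℂ := aeval fun s => (1 : ℂ) ⊗ₜ[F] y s
  have hΨ : ∀ g' : MvPolynomial σ F, Ψ (MvPolynomial.map (algebraMap F ℂ) g') = (1 : ℂ) ⊗ₜ[F] aeval y g' := by
    intro g'
    have h1 : ((Ψ.restrictScalars F).comp (mapAlgHom (Algebra.ofId F ℂ)) :
        MvPolynomial σ F →ₐ[F] ℂ ⊗[F] ℂ) = (Algebra.TensorProduct.includeRight).comp (aeval y) := by
      refine MvPolynomial.algHom_ext fun s => ?_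
      simp [Ψ]
    exact DFunLike.congr_fun h1 g'
  have h0 : Ψ (aeval (Sum.elim (fun i => (C (w i) : MvPolynomial σ ℂ)) X) P) = 0 := by
    have h1 : Ideal.span G ≤ RingHom.ker Ψ.toRingHom := by
      refine Ideal.span_le.2 fun g hg => ?_
      obtain ⟨g', rfl, h2⟩ := hG g hg
      show Ψ _ = 0
      rw [hΨ, h2, TensorProduct.tmul_zero]
    exact h1 hP
  -- the sum in the tensor product
  have h1 : Ψ (aeval (Sum.elim (fun i => (C (w i) : MvPolynomial σ ℂ)) X) P) =
      ∑ m ∈ P'.support, (m.prod fun i e => w i ^ e) ⊗ₜ[F] aeval y (P'.coeff m) := by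
    rw [aeval_sum, map_sum]
    refine Finset.sum_congr rfl fun m _ => ?_
    rw [map_mul]
    have e1 : (aeval (X : σ → MvPolynomial σ ℂ)) (P'.coeff m) = MvPolynomial.map (algebraMap F ℂ) (P'.coeff m) := by
      have h2 : (aeval (X : σ → MvPolynomial σ ℂ) : MvPolynomial σ F →ₐ[F] MvPolynomial σ ℂ) =
          mapAlgHom (Algebra.ofId F ℂ) := by
        refine MvPolynomial.algHom_ext fun s => ?_
        simp
      exact DFunLike.congr_fun h2 (P'.coeff m)
    rw [e1, hΨ]
    have e2 : (m.prod fun i e => (C (w i) : MvPolynomial σ ℂ) ^ e) = C (m.prod fun i e => w i ^ e) := by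
      unfold Finsupp.prod
      rw [map_prod]
      exact Finset.prod_congr rfl fun i _ => by rw [map_pow]
    rw [e2]
    have e3 : Ψ (C (m.prod fun i e => w i ^ e)) = (m.prod fun i e => w i ^ e) ⊗ₜ[F] (1 : ℂ) := by
      rw [← MvPolynomial.algebraMap_eq, Ψ.commutes]
      rfl
    rw [e3, Algebra.TensorProduct.tmul_mul_tmul, one_mul, mul_one]
  rw [h1] at h0
  -- linear independence of the monomials
  have hli : LinearIndependent F fun m : ι →₀ ℕ => (m.prod fun i e => w i ^ e : ℂ) := by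
    have h3 := (basisMonomials ι F).linearIndependent.map' (aeval w : MvPolynomial ι F →ₐ[F] ℂ).toLinearMap
      (LinearMap.ker_eq_bot.2 hw)
    have h4 : (fun m : ι →₀ ℕ => (m.prod fun i e => w i ^ e : ℂ)) =
        (aeval w : MvPolynomial ι F →ₐ[F] ℂ).toLinearMap ∘ basisMonomials ι F := by
      funext m
      simp [aeval_monomial]
    rw [h4]
    exact h3
  have key : ∀ m ∈ P'.support, aeval y (P'.coeff m) = 0 := by
    intro m0 hm0
    obtain ⟨φ, hφ⟩ : ∃ φ : ℂ →ₗ[F] F, ∀ m, φ (m.prod fun i e => w i ^ e) = if m = m0 then 1 else 0 := by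
      obtain ⟨φ, hφ⟩ := LinearMap.exists_extend
        ((Finsupp.lapply (R := F) m0 : ((ι →₀ ℕ) →₀ F) →ₗ[F] F) ∘ₗ hli.repr)
      refine ⟨φ, fun m => ?_⟩
      have h4 := DFunLike.congr_fun hφ ⟨m.prod fun i e => w i ^ e, Submodule.subset_span ⟨m, rfl⟩⟩
      simp only [LinearMap.comp_apply, Submodule.subtype_apply, Finsupp.lapply_apply] at h4
      rw [h4]
      rw [hli.repr_eq_single m _ rfl, Finsupp.single_apply]
    have h5 := congrArg (TensorProduct.lid F ℂ ∘ (φ.rTensor ℂ)) h0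
    simp only [Function.comp_apply, map_sum, map_zero, LinearMap.rTensor_tmul, TensorProduct.lid_tmul, hφ] at h5
    rw [Finset.sum_eq_single m0 (fun m _ hm => by rw [if_neg hm, zero_smul]) (fun h => absurd hm0 h)] at h5
    simpa using h5
  rw [aeval_sum]
  refine Finset.sum_eq_zero fun m hm => ?_
  rw [key m hm, zero_mul]

end Pool.Agent.Y113.EU
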