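import Mathlib

/-!
# The space of values of polynomials of bounded degree
-/

set_option autoImplicit false

namespace Pool.Agent.Y113.EU

variable {q : ℕ}

/-- the space spanned by the monomials in the numbers `c` with exponents at most `δ` -/
noncomputable def VV (c : Fin q → ℂ) (K : IntermediateField ℚ ℂ) (δ : ℕ) : Submodule K ℂ :=
  Submodule.span K (Set.range fun m : Fin q → Fin (δ + 1) => ∏ i, c i ^ (m i : ℕ))

theorem mem_VV (c : Fin q → ℂ) (K : IntermediateField ℚ ℂ) (δ : ℕ) (P : MvPolynomial (Fin q) K)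
    (hP : P.totalDegree ≤ δ) : MvPolynomial.aeval c P ∈ VV c K δ := by
  classical
  rw [MvPolynomial.aeval_def, MvPolynomial.eval₂_eq']
  refine Submodule.sum_mem _ fun m hm => ?_
  have h1 : ∀ i, m i < δ + 1 := by
    intro i
    have h2 := MvPolynomial.le_totalDegree hm
    have h3 : m i ≤ m.sum fun _ e => e := by
      by_cases h4 : i ∈ m.support
      · exact Finset.single_le_sum (f := fun i => m i) (fun _ _ => Nat.zero_le _) h4
      · rw [Finsupp.notMem_support_iff.1 h4]
        exact Nat.zero_le _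
    omega
  have h2 := Submodule.subset_span (R := K) (s := Set.range fun m : Fin q → Fin (δ + 1) => ∏ i, c i ^ (m i : ℕ))
    ⟨fun i => ⟨m i, h1 i⟩, rfl⟩
  have h3 := Submodule.smul_mem _ (P.coeff m) h2
  rw [Algebra.smul_def] at h3
  exact h3

theorem fin_VV (c : Fin q → ℂ) (K : IntermediateField ℚ ℂ) (hK : FiniteDimensional ℚ K) (δ : ℕ) :
    Module.Finite ℚ ((VV c K δ).restrictScalars ℚ) := by
  have h1 : Module.Finite K (VV c K δ) := Module.Finite.span_of_finite K (Set.finite_range _)
  exact Module.Finite.trans (R := ℚ) K (VV c K δ)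

theorem rank_VV (c : Fin q → ℂ) (K : IntermediateField ℚ ℂ) (hK : FiniteDimensional ℚ K) (δ D : ℕ)
    (hD : Module.finrank ℚ K ≤ D) :
    Module.finrank ℚ ((VV c K δ).restrictScalars ℚ) ≤ D * (δ + 1) ^ q := by
  have h1 : Module.Finite K (VV c K δ) := Module.Finite.span_of_finite K (Set.finite_range _)
  have h2 : Module.finrank ℚ ((VV c K δ).restrictScalars ℚ) = Module.finrank ℚ K * Module.finrank K (VV c K δ) :=
    (Module.finrank_mul_finrank ℚ K (VV c K δ)).symm
  rw [h2]
  refine Nat.mul_le_mul hD ?_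
  have h3 : Module.finrank K (VV c K δ) ≤ Fintype.card (Fin q → Fin (δ + 1)) :=
    finrank_range_le_card (R := K) (fun m : Fin q → Fin (δ + 1) => ∏ i, c i ^ (m i : ℕ))
  refine h3.trans (le_of_eq ?_)
  rw [Fintype.card_pi, Finset.prod_const, Fintype.card_fin, Finset.card_univ, Fintype.card_fin]

end Pool.Agent.Y113.EU
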