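import Pool.Agent.Y113.EU.Core
import Pool.Agent.Y118.UL.Winr

/-!
# Numbers which stay algebraically independent over the periods of almost all members of a family
-/

set_option autoImplicit false

open PowerSeries Pool.Agent.Y113 Pool.Agent.Y120.GF Pool.Agent.Y120.GH

namespace Pool.Agent.Y113.EU

variable {r : ℕ}

/-- the value of a relation at a point of convergence -/
theorem spec_val {h : Fin r → ℚ⟦X⟧} {t : ℕ} (ht : 0 < t) (hcv : ∀ i, Cv (t : ℝ) (h i))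
    (R : MvPolynomial (Fin r) (Polynomial ℚ)) : Cv (t : ℝ) (MvPolynomial.aeval h R) ∧
      ((ev (t : ℝ) (MvPolynomial.aeval h R) : ℝ) : ℂ) =
        MvPolynomial.eval₂ (spec t) (fun i => ((ev (t : ℝ) (h i) : ℝ) : ℂ)) R := by
  have ht' : (0 : ℝ) < t := by exact_mod_cast ht
  induction R using MvPolynomial.induction_on with
  | C a =>
    have h1 : MvPolynomial.aeval h (MvPolynomial.C a) = (a : ℚ⟦X⟧) := by
      rw [MvPolynomial.aeval_C]
      rfl
    rw [h1, MvPolynomial.eval₂_C]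
    refine ⟨Cv.coe a, ?_⟩
    rw [ev_coe]
    have h2 : (1 / (t : ℝ)) = algebraMap ℚ ℝ (1 / (t : ℚ)) := by
      rw [eq_ratCast]
      push_cast
      rfl
    rw [h2, Polynomial.aeval_algebraMap_apply]
    simp [spec]
  | add P Q hP hQ =>
    rw [map_add, MvPolynomial.eval₂_add]
    refine ⟨hP.1.add ht' hQ.1, ?_⟩
    rw [hP.1.ev_add ht' hQ.1, Complex.ofReal_add, hP.2, hQ.2]
  | mul_X P i hP =>
    rw [map_mul, MvPolynomial.eval₂_mul, MvPolynomial.aeval_X, MvPolynomial.eval₂_X]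
    refine ⟨hP.1.mul ht' (hcv i), ?_⟩
    rw [hP.1.ev_mul ht' (hcv i), Complex.ofReal_mul, hP.2]

/-- the rearrangement of the variables -/
def rho (q p : ℕ) (τ : Type) : Fin q ⊕ (Fin p ⊕ τ) → (Fin p ⊕ Fin q) ⊕ τ :=
  Sum.elim (fun i => Sum.inl (Sum.inr i)) (Sum.elim (fun i => Sum.inl (Sum.inl i)) Sum.inr)

theorem indep {p q k d : ℕ} {τ : Type} {h : Fin r → ℚ⟦X⟧} {t : Fin k → ℕ} {e : Fin k × Fin r → τ}
    (Ω : Fin p → ℂ) (w : Fin q → ℂ)
    (hw : AlgebraicIndependent (IntermediateField.adjoin ℚ (Set.range Ω)) w) (y : τ → ℂ)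
    (hy : ∀ j (R : MvPolynomial (Fin r) (Polynomial ℚ)), MvPolynomial.aeval h R = 0 →
      MvPolynomial.eval₂ (spec (t j)) (fun i => y (e (j, i))) R = 0)
    (K : IntermediateField ℚ ℂ) (hK : FiniteDimensional ℚ K) (P : MvPolynomial (Fin q ⊕ (Fin p ⊕ τ)) K)
    (hP : Pool.Agent.Y118.UL.pc (Sum.elim Ω w) (MvPolynomial.rename (rho q p τ) P) ∈ Pool.Agent.Y118.UL.rI d h t e)
    (v : Fin q → ℂ) : MvPolynomial.aeval (Sum.elim v (Sum.elim Ω y)) P = 0 := by
  classical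
  set L := IntermediateField.adjoin ℚ (Set.range Ω) with hL
  have hw2 : AlgebraicIndependent (algebraicClosure L ℂ) w := hw.algebraicClosure
  have hKmem : ∀ x : K, algebraMap K ℂ x ∈ algebraicClosure L ℂ := by
    intro x
    rw [mem_algebraicClosure_iff]
    have h1 : IsAlgebraic ℚ (x : K) := Algebra.IsAlgebraic.isAlgebraic x
    exact (h1.algebraMap (A := ℂ)).extendScalars (algebraMap ℚ L).injective
  have hΩmem : ∀ j, Ω j ∈ algebraicClosure L ℂ := by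
    intro j
    have h1 : Ω j ∈ L := IntermediateField.subset_adjoin ℚ _ ⟨j, rfl⟩
    rw [mem_algebraicClosure_iff]
    exact isAlgebraic_algebraMap (⟨Ω j, h1⟩ : L)
  let ψ : K →+* (algebraicClosure L ℂ) := (algebraMap K ℂ).codRestrict (algebraicClosure L ℂ) hKmem
  let Ω' : Fin p → (algebraicClosure L ℂ) := fun j => ⟨Ω j, hΩmem j⟩
  let Q : MvPolynomial (Fin q ⊕ τ) (algebraicClosure L ℂ) :=
    MvPolynomial.eval₂Hom ((MvPolynomial.C : (algebraicClosure L ℂ) →+* _).comp ψ)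
      (Sum.elim (fun i => MvPolynomial.X (Sum.inl i)) (Sum.elim (fun j => MvPolynomial.C (Ω' j)) fun s => MvPolynomial.X (Sum.inr s))) P
  have claim1 : ∀ v : Fin q → ℂ, MvPolynomial.aeval (Sum.elim v y) Q = MvPolynomial.aeval (Sum.elim v (Sum.elim Ω y)) P := by
    intro v
    have h1 : ((MvPolynomial.aeval (Sum.elim v y) : MvPolynomial (Fin q ⊕ τ) (algebraicClosure L ℂ) →ₐ[algebraicClosure L ℂ] ℂ).toRingHom.comp
        (MvPolynomial.eval₂Hom ((MvPolynomial.C : (algebraicClosure L ℂ) →+* _).comp ψ)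
      (Sum.elim (fun i => MvPolynomial.X (Sum.inl i)) (Sum.elim (fun j => MvPolynomial.C (Ω' j)) fun s => MvPolynomial.X (Sum.inr s))))) =
        (MvPolynomial.aeval (Sum.elim v (Sum.elim Ω y)) : MvPolynomial (Fin q ⊕ (Fin p ⊕ τ)) K →ₐ[K] ℂ).toRingHom := by
      refine MvPolynomial.ringHom_ext (fun a => ?_) fun i => ?_
      · simp [ψ]
      · rcases i with i | i | i
        · simp
        · simp [Ω']
        · simp
    exact DFunLike.congr_fun h1 P
  have claim2 : MvPolynomial.aeval (Sum.elim (fun i => (MvPolynomial.C (w i) : MvPolynomial τ ℂ)) MvPolynomial.X) Q =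
      Pool.Agent.Y118.UL.pc (Sum.elim Ω w) (MvPolynomial.rename (rho q p τ) P) := by
    have h1 : ((MvPolynomial.aeval (Sum.elim (fun i => (MvPolynomial.C (w i) : MvPolynomial τ ℂ)) MvPolynomial.X) :
        MvPolynomial (Fin q ⊕ τ) (algebraicClosure L ℂ) →ₐ[algebraicClosure L ℂ] MvPolynomial τ ℂ).toRingHom.comp
        (MvPolynomial.eval₂Hom ((MvPolynomial.C : (algebraicClosure L ℂ) →+* _).comp ψ)
      (Sum.elim (fun i => MvPolynomial.X (Sum.inl i)) (Sum.elim (fun j => MvPolynomial.C (Ω' j)) fun s => MvPolynomial.X (Sum.inr s))))) =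
        (MvPolynomial.aeval (Sum.elim (fun v => MvPolynomial.C (Sum.elim Ω w v)) MvPolynomial.X) :
          MvPolynomial ((Fin p ⊕ Fin q) ⊕ τ) K →ₐ[K] MvPolynomial τ ℂ).toRingHom.comp
          (MvPolynomial.rename (rho q p τ) : MvPolynomial (Fin q ⊕ (Fin p ⊕ τ)) K →ₐ[K]
            MvPolynomial ((Fin p ⊕ Fin q) ⊕ τ) K).toRingHom := by
      refine MvPolynomial.ringHom_ext (fun a => ?_) fun i => ?_
      · simp [ψ]
      · rcases i with i | i | i
        · simp [rho]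
        · simp [Ω', rho]
        · simp [rho]
    exact DFunLike.congr_fun h1 P
  rw [← claim1 v]
  refine core w hw2 y _ ?_ Q (by rw [claim2]; exact hP) v
  rintro g ⟨j, R, -, hR, rfl⟩
  refine ⟨MvPolynomial.rename (fun i => e (j, i)) (MvPolynomial.map
    ((algebraMap ℚ (algebraicClosure L ℂ)).comp (Polynomial.evalRingHom (1 / ((t j : ℕ) : ℚ)))) R), ?_, ?_⟩
  · rw [MvPolynomial.map_rename, MvPolynomial.map_map]
    rfl
  · rw [MvPolynomial.aeval_rename]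
    have h1 := hy j R hR
    rw [MvPolynomial.aeval_def, MvPolynomial.eval₂_map]
    exact h1

/-- `w` satisfies no relation of degree `≤ d` over number fields of degree `≤ D` which involves the numbers `x` -/
def Ind {ι τ : Type} (w : ι → ℂ) (x : τ → ℂ) (D d : ℕ) : Prop :=
  ∀ K : IntermediateField ℚ ℂ, FiniteDimensional ℚ K → Module.finrank ℚ K ≤ D →
  ∀ P : MvPolynomial (ι ⊕ τ) K, P.totalDegree ≤ d → MvPolynomial.aeval (Sum.elim w x) P = 0 →
  ∀ v : ι → ℂ, MvPolynomial.aeval (Sum.elim v x) P = 0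

theorem main {h : Fin r → ℚ⟦X⟧} {T : Polynomial ℤ} {A : Fin r → Fin r → Polynomial ℤ} (hT : T ≠ 0)
    (hode : ∀ i, ps T * d⁄dX ℚ (h i) = ∑ j, ps (A i j) * h j)
    (hsize : ∃ C : ℝ, ∀ i m, |((coeff m (h i) : ℚ) : ℝ)| ≤ C ^ (m + 1))
    (hden : ∃ C : ℝ, ∀ m, ∃ d : ℕ, 0 < d ∧ (d : ℝ) ≤ C ^ (m + 1) ∧ ∀ i, ∀ j ≤ m, ∃ a : ℤ, (d : ℚ) * coeff j (h i) = a)
    (hgal : ∃ C : ℝ, ∀ m, ∃ d : ℕ, 0 < d ∧ (d : ℝ) ≤ C ^ (m + 1) ∧ ∀ s ≤ m, ∀ i j, ∃ H : Polynomial ℤ,
      (d : Polynomial ℤ) * itm T A s i j = (s.factorial : Polynomial ℤ) * H)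
    (hqu : QU0 T A) (conn : Pool.Agent.Y118.UL.Conn h) :
    ∃ G0 : ℕ, ∀ G : ℕ, G0 ≤ G → ∀ (p : ℕ) (Ω : Fin p → ℂ) (q k D d : ℕ), ∃ E : ℕ, ∀ H t : ℕ, (H + 2) ^ E ≤ t →
      ∀ w : Fin q → ℂ, AlgebraicIndependent (IntermediateField.adjoin ℚ (Set.range Ω)) w →
      (∃ S : Finset ℕ, (S.card : Cardinal) ≤ Algebra.trdeg ℚ (IntermediateField.adjoin ℚ (Set.range Ω)) + q ∧
        ∀ u : Fin k → ℕ, Function.Injective u → (∀ j, 1 ≤ u j ∧ u j ≤ H ∧ u j ∉ S) →
        Ind w (Sum.elim Ω fun a : Fin k × Fin r => ((ev ((t - G * u a.1 : ℕ) : ℝ) (h a.2) : ℝ) : ℂ)) D d) ∧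
      (∃ S : Finset ℕ, (S.card : Cardinal) ≤ Algebra.trdeg ℚ (IntermediateField.adjoin ℚ (Set.range Ω)) + q + 1 ∧
        ∀ u : Fin k → ℕ, Function.Injective u → (∀ j, 1 ≤ u j ∧ u j ≤ H ∧ u j ∉ S) →
        Ind w (Sum.elim Ω (Pool.Agent.Y118.UL.gl (fun a : Fin k × Fin r =>
          ((ev ((t - G * u a.1 : ℕ) : ℝ) (h a.2) : ℝ) : ℂ)) fun j => ((Real.log (t - G * u j : ℕ) : ℝ) : ℂ))) D d) := by
  obtain ⟨G0, h0⟩ := Pool.Agent.Y118.UL.winR hT hode hsize hden hgal hqu conn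
  refine ⟨G0, fun G hG p Ω q k D d => ?_⟩
  obtain ⟨E, hE⟩ := h0 G hG p Ω q k D d
  obtain ⟨C', hC'⟩ := hsize
  obtain ⟨c, hc⟩ := exists_nat_gt |C'|
  refine ⟨E + (G + c + 1), fun H t ht w hw => ?_⟩
  have ht1 : (H + 2) ^ E ≤ t := (Nat.pow_le_pow_right (by omega) (by omega)).trans ht
  have ht2 : (H + 2) ^ (G + c + 1) ≤ t := (Nat.pow_le_pow_right (by omega) (by omega)).trans ht
  have ht3 : G * H + c < t := by
    have e1 : G + 1 ≤ 2 ^ G := Nat.lt_two_pow_self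
    have e2 : c + 1 ≤ 2 ^ c := Nat.lt_two_pow_self
    have e3 : 2 ^ G ≤ (H + 2) ^ G := Nat.pow_le_pow_left (by omega) _
    have e4 : 2 ^ c ≤ (H + 2) ^ c := Nat.pow_le_pow_left (by omega) _
    have e5 : (G + 1) * (c + 1) * (H + 2) ≤ (H + 2) ^ (G + c + 1) := by
      rw [pow_add, pow_add, pow_one]
      exact Nat.mul_le_mul_right _ (Nat.mul_le_mul (e1.trans e3) (e2.trans e4))
    have e6 : G * H + c < (G + 1) * (c + 1) * (H + 2) := by
      have : (G + 1) * (c + 1) * (H + 2) = G * H + c + (G * c * (H + 2) + c * (H + 1) + H + 2 + 2 * G) := by ring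
      omega
    omega
  have hcv : ∀ u, u ≤ H → (0 < t - G * u) ∧ ∀ i, Cv ((t - G * u : ℕ) : ℝ) (h i) := by
    intro u hu
    have e1 : G * u ≤ G * H := Nat.mul_le_mul_left _ hu
    have e2 : c < t - G * u := by omega
    have e3 : (c : ℝ) < ((t - G * u : ℕ) : ℝ) := by exact_mod_cast e2
    refine ⟨by omega, fun i => Cv.of_bound (A := |C'|) (B := |C'|) ?_ (abs_nonneg _) (hc.trans e3) fun m => ?_⟩
    · exact lt_of_le_of_lt (Nat.cast_nonneg c) e3
    · refine (hC' i m).trans ((le_abs_self _).trans (le_of_eq ?_))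
      rw [abs_pow, pow_succ, mul_comm]
  have hrel : ∀ u, u ≤ H → ∀ R : MvPolynomial (Fin r) (Polynomial ℚ), MvPolynomial.aeval h R = 0 →
      MvPolynomial.eval₂ (spec (t - G * u)) (fun i => ((ev ((t - G * u : ℕ) : ℝ) (h i) : ℝ) : ℂ)) R = 0 := by
    intro u hu R hR
    rw [← (spec_val (hcv u hu).1 (hcv u hu).2 R).2, hR, ev_zero, Complex.ofReal_zero]
  obtain ⟨⟨S, hS, hS2⟩, S', hS', hS2'⟩ := hE H t ht1 w
  refine ⟨⟨S, hS, fun u hu huS K hK hKD P hP hP0 v => ?_⟩, S', hS', fun u hu huS K hK hKD P hP hP0 v => ?_⟩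
  · have h1 : MvPolynomial.aeval (Sum.elim (Sum.elim Ω w) fun a : Fin k × Fin r =>
        ((ev ((t - G * u a.1 : ℕ) : ℝ) (h a.2) : ℝ) : ℂ)) (MvPolynomial.rename (rho q p (Fin k × Fin r)) P) = 0 := by
      rw [MvPolynomial.aeval_rename, ← hP0]
      congr 2
      funext a
      rcases a with a | a | a <;> rfl
    have h2 := hS2 u hu huS K hK hKD (MvPolynomial.rename (rho q p (Fin k × Fin r)) P)
      ((MvPolynomial.totalDegree_rename_le _ _).trans hP) h1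
    refine indep (t := fun j => t - G * u j) (e := id) (d := d) (h := h) Ω w hw
      (fun a : Fin k × Fin r => ((ev ((t - G * u a.1 : ℕ) : ℝ) (h a.2) : ℝ) : ℂ)) ?_ K hK P h2 v
    intro j R hR
    exact hrel (u j) (huS j).2.1 R hR
  · have h1 : MvPolynomial.aeval (Sum.elim (Sum.elim Ω w) (Pool.Agent.Y118.UL.gl (fun a : Fin k × Fin r =>
          ((ev ((t - G * u a.1 : ℕ) : ℝ) (h a.2) : ℝ) : ℂ)) fun j => ((Real.log (t - G * u j : ℕ) : ℝ) : ℂ)))
          (MvPolynomial.rename (rho q p (Fin k × Option (Fin r))) P) = 0 := by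
      rw [MvPolynomial.aeval_rename, ← hP0]
      congr 2
      funext a
      rcases a with a | a | a <;> rfl
    have h2 := hS2' u hu huS K hK hKD (MvPolynomial.rename (rho q p (Fin k × Option (Fin r))) P)
      ((MvPolynomial.totalDegree_rename_le _ _).trans hP) h1
    refine indep (t := fun j => t - G * u j) (e := fun a : Fin k × Fin r => (a.1, some a.2)) (d := d) (h := h) Ω w hw
      (Pool.Agent.Y118.UL.gl (fun a : Fin k × Fin r =>
          ((ev ((t - G * u a.1 : ℕ) : ℝ) (h a.2) : ℝ) : ℂ)) fun j => ((Real.log (t - G * u j : ℕ) : ℝ) : ℂ)) ?_ K hK P h2 v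
    intro j R hR
    exact hrel (u j) (huS j).2.1 R hR

end Pool.Agent.Y113.EU
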